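import Pool.Agent.Helper93.TH3.StD

/-!
# Project TH3, module LED: solutions of the relations with given leading forms
-/

set_option autoImplicit false

namespace Pool.Agent.Helper44.TH3

open Pool.Agent.Helper93.TH3
open Pool.Agent.Helper78.W3 (tr Fn3 op3 Wd3 dX dY oN Lw bb3 S3Trm S3Low0 S3Lw1 S3Bb)

private theorem qT_eq {q q' : ℕ} (f0 f1 f2 b b' : Fn3 q q') : qT f0 f1 f2 b b' =
    -f1 + op3 1 1 0 1 f2 - op3 8 (-1) 2 (-2) (f0 - f1 - (b - op3 4 (-1) 2 (-4) b)) +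
      op3 10 1 2 2 (f0 - f2 - (b' - op3 4 1 (-2) (-4) b')) := rfl

theorem hLed (_ht : S3Trm) (hl : S3Low0) (h1 : S3Lw1) (hw : TLwt) (hb : S3Bb)
    (hs : TSol) (hu : TSur) : TLed := by
  intro r s al be u0 u1 u2 hal hbe hev
  obtain ⟨-, -, -, -, wmono, -, ldx, ldy, -⟩ := hl r s
  obtain ⟨b1, -⟩ := hb r s
  obtain ⟨-, -, -, -, lN, -⟩ := h1 r s
  obtain ⟨-, -, -, we, -, wA, wS, -, wG, wG'⟩ := hw r s
  have hal' : (al : ℤ) < 3 ^ r := by exact_mod_cast hal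
  have hbe' : (be : ℤ) < 3 ^ s := by exact_mod_cast hbe
  obtain ⟨d, hd⟩ : ∃ d : ℤ, d = (al : ℤ) + be := ⟨_, rfl⟩
  have hde : Even d := by
    obtain ⟨m, hm⟩ := hev
    exact ⟨(m : ℤ), by rw [hd]; exact_mod_cast hm⟩
  have hodd : Odd (d - 1) := hde.sub_odd odd_one
  -- operators of the form `oN * L`, `L` the identity modulo lower degree
  have key : ∀ O L : Module.End (ZMod 3) (Fn3 (3 ^ r) (3 ^ s)),
      (∀ (k : ℤ) (F : Fn3 (3 ^ r) (3 ^ s)), F ∈ Wd3 k → L F - F ∈ Wd3 (k - 1)) →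
      Lw (O - oN * L) 2 → (∀ (k : ℤ) (F : Fn3 (3 ^ r) (3 ^ s)), F ∈ Wd3 k → O F ∈ Wd3 k) ∧
        ∀ (k : ℤ) (F : Fn3 (3 ^ r) (3 ^ s)), Even k → F ∈ Wd3 k → O F - F ∈ Wd3 (k - 1) := by
    intro O L hL hO
    have e : ∀ F : Fn3 (3 ^ r) (3 ^ s), O F = (O - oN * L : Module.End (ZMod 3) (Fn3 (3 ^ r) (3 ^ s))) F + oN F + oN (L F - F) := by
      intro F
      simp only [LinearMap.sub_apply, Module.End.mul_apply, map_sub]
      abel
    have g1 : ∀ (k : ℤ) (F : Fn3 (3 ^ r) (3 ^ s)), F ∈ Wd3 k → (O - oN * L : Module.End (ZMod 3) (Fn3 (3 ^ r) (3 ^ s))) F ∈ Wd3 (k - 1) :=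
      fun k F hF => wmono _ _ (by linarith : k - 2 ≤ k - 1) (hO k F hF)
    have g2 : ∀ (k : ℤ) (F : Fn3 (3 ^ r) (3 ^ s)), F ∈ Wd3 k → oN (L F - F) ∈ Wd3 (k - 1) := by
      intro k F hF
      have h := lN _ _ (hL k F hF)
      rwa [sub_zero] at h
    have g3 : ∀ (k : ℤ) (F : Fn3 (3 ^ r) (3 ^ s)), F ∈ Wd3 k → oN F ∈ Wd3 k := by
      intro k F hF
      have h := lN _ _ hF
      rwa [sub_zero] at h
    refine ⟨fun k F hF => ?_, fun k F hk hF => ?_⟩
    · rw [e]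
      exact Submodule.add_mem _ (Submodule.add_mem _
        (wmono _ _ (by linarith : k - 1 ≤ k) (g1 k F hF)) (g3 k F hF))
        (wmono _ _ (by linarith : k - 1 ≤ k) (g2 k F hF))
    · have e' : O F - F = (O - oN * L : Module.End (ZMod 3) (Fn3 (3 ^ r) (3 ^ s))) F + (oN F - F) + oN (L F - F) := by
        rw [e F]
        abel
      rw [e']
      exact Submodule.add_mem _ (Submodule.add_mem _ (g1 k F hF) (we k F hF hk)) (g2 k F hF)
  have kS := (key _ _ (fun k F hF => by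
    have e : (1 - dX + dY : Module.End (ZMod 3) (Fn3 (3 ^ r) (3 ^ s))) F - F = dY F - dX F := by
      simp only [LinearMap.add_apply, LinearMap.sub_apply, Module.End.one_apply]
      abel
    rw [e]
    exact Submodule.sub_mem _ (ldy k F hF) (ldx k F hF)) wS).1
  have kG := (key _ _ (fun k F hF => by
    have e : (1 + dX - dY : Module.End (ZMod 3) (Fn3 (3 ^ r) (3 ^ s))) F - F = dX F - dY F := by
      simp only [LinearMap.add_apply, LinearMap.sub_apply, Module.End.one_apply]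
      abel
    rw [e]
    exact Submodule.sub_mem _ (ldx k F hF) (ldy k F hF)) wG).2
  have kG' := (key _ _ (fun k F hF => by
    have e : (1 + dX + dY : Module.End (ZMod 3) (Fn3 (3 ^ r) (3 ^ s))) F - F = dX F + dY F := by
      simp only [LinearMap.add_apply, Module.End.one_apply]
      abel
    rw [e]
    exact Submodule.add_mem _ (ldx k F hF) (ldy k F hF)) wG').2
  have kA : ∀ (k : ℤ) (F : Fn3 (3 ^ r) (3 ^ s)), F ∈ Wd3 k → op3 1 1 0 1 F - F ∈ Wd3 (k - 1) := by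
    intro k F hF
    have e : op3 1 1 0 1 F - F =
        (op3 1 1 0 1 - 1 - dX : Module.End (ZMod 3) (Fn3 (3 ^ r) (3 ^ s))) F + dX F := by
      simp only [LinearMap.sub_apply, Module.End.one_apply]
      abel
    rw [e]
    exact Submodule.add_mem _ (wmono _ _ (by linarith : k - 2 ≤ k - 1) (wA k F hF)) (ldx k F hF)
  obtain ⟨P, hP⟩ : ∃ P : Fn3 (3 ^ r) (3 ^ s), P = bb3 al be := ⟨_, rfl⟩
  have hPW : P ∈ Wd3 d := by
    rw [hP, hd]
    exact b1 al be hal hbe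
  -- the defect of the first approximation
  obtain ⟨E, hE⟩ : ∃ E : Fn3 (3 ^ r) (3 ^ s), E = qT (u0 • P) (u1 • P) (u2 • P) 0 0 := ⟨_, rfl⟩
  have hEW : E ∈ Wd3 (d - 1) := by
    have e : E = u2 • (op3 1 1 0 1 P - P) - (u0 - u1) • (op3 8 (-1) 2 (-2) P - P) +
        (u0 - u2) • (op3 10 1 2 2 P - P) := by
      rw [hE, qT_eq]
      simp only [map_zero, sub_zero, map_sub, map_smul]
      module
    rw [e]
    exact Submodule.add_mem _ (Submodule.sub_mem _ (Submodule.smul_mem _ _ (kA d P hPW))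
      (Submodule.smul_mem _ _ (kG d P hde hPW))) (Submodule.smul_mem _ _ (kG' d P hde hPW))
  obtain ⟨f0, f1, b, -, -, -, hf, hq⟩ := hu r s (d - 1) E (by linarith) hEW
  obtain ⟨hf0, hf1, hfb⟩ := hf hodd
  have hz : qT (u0 • P - f0) (u1 • P - f1) (u2 • P) (-b) 0 = (0 : Fn3 (3 ^ r) (3 ^ s)) := by
    have e : qT (u0 • P - f0) (u1 • P - f1) (u2 • P) (-b) 0 = E - qT f0 f1 0 b 0 := by
      rw [hE, qT_eq, qT_eq, qT_eq]
      simp only [map_zero, sub_zero, map_sub, map_smul, map_neg]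
      module
    rw [e, hq, sub_self]
  have hm : ∀ {F : Fn3 (3 ^ r) (3 ^ s)}, F ∈ Wd3 (d - 1) → F ∈ Wd3 d :=
    fun hF => wmono _ _ (by linarith : d - 1 ≤ d) hF
  have m0 : u0 • P - f0 ∈ Wd3 d := Submodule.sub_mem _ (Submodule.smul_mem _ _ hPW) (hm hf0)
  have m1 : u1 • P - f1 ∈ Wd3 d := Submodule.sub_mem _ (Submodule.smul_mem _ _ hPW) (hm hf1)
  have m2 : u2 • P ∈ Wd3 d := Submodule.smul_mem _ _ hPW
  refine ⟨solT (u0 • P - f0) (u1 • P - f1) (u2 • P) (-b) 0,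
    hs (ZMod 3) _ r s _ _ _ _ _ fun x y => congrFun (congrFun hz x) y, ?_, ?_, ?_, ?_⟩
  · rw [← hd]
    intro f
    fin_cases f
    · exact m0
    · exact m1
    · exact m2
    · change u0 • P - f0 - (u1 • P - f1) - (-b - op3 4 (-1) 2 (-4) (-b)) ∈ Wd3 d
      have mb : -b ∈ Wd3 d := Submodule.neg_mem _ (hm hfb)
      exact Submodule.sub_mem _ (Submodule.sub_mem _ m0 m1)
        (Submodule.sub_mem _ mb (kS d _ mb))
    · change u0 • P - f0 - u2 • P - (0 - op3 4 1 (-2) (-4) 0) ∈ Wd3 d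
      rw [map_zero, sub_zero, sub_zero]
      exact Submodule.sub_mem _ m0 m2
  · change u0 • P - f0 - u0 • bb3 al be ∈ Wd3 ((al : ℤ) + be - 1)
    rw [← hP, ← hd]
    have e : u0 • P - f0 - u0 • P = -f0 := by abel
    rw [e]
    exact Submodule.neg_mem _ hf0
  · change u1 • P - f1 - u1 • bb3 al be ∈ Wd3 ((al : ℤ) + be - 1)
    rw [← hP, ← hd]
    have e : u1 • P - f1 - u1 • P = -f1 := by abel
    rw [e]
    exact Submodule.neg_mem _ hf1
  · change u2 • P - u2 • bb3 al be ∈ Wd3 ((al : ℤ) + be - 1)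
    rw [← hP, sub_self]
    exact Submodule.zero_mem _

end Pool.Agent.Helper44.TH3
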